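import Pool.Agent.H559.NT.Main2
import Pool.Agent.H559.NT.Idd
import Pool.Agent.Y50.NT.Disc
import Pool.Agent.Y405.NT.Eq
import Pool.Agent.Y467.NT.Lim
import Pool.Agent.Y467.NT.Mid

/-!
# Non-tame discrete subsets of non-compact complex manifolds

Every non-compact complex manifold `X` (Hausdorff, second countable, finite dimensional, not
necessarily connected) in which all entire curves `ℂ → X` with relatively compact image are
constant contains an infinite discrete subset which is not tame. By Liouville's theorem the
hypothesis holds if every compact subset of `X` has an open neighbourhood whose points are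
separated by holomorphic functions: for all Stein manifolds, all domains in `ℂⁿ`, all open subsets
of Stein manifolds, all increasing unions of Stein manifolds.

Proof. Suppose that all infinite discrete sets are tame.
(1) A diagonal argument shows that for a nonempty relatively compact open set `V` there is ONE
compact set `K` such that for every compact `L` and every discrete set `D` off `K` there is an
automorphism `φ` with `φ(V) ⊆ K`, `φ(D) ∩ L = ∅`.
(2) (Rosay–Rudin sets.) The automorphisms `H` with `H⁻¹(V) ⊆ K` which map a given domain into a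
given compact set form a normal family with nondegenerate limits (Zalcman–Brody rescaling), so
there are finite sets that are hit by all those of them that are not small. The union of such
finite sets is a discrete set, and (1) yields automorphisms `H_i` with `H_i⁻¹(V) ⊆ K` that
squeeze larger and larger compact sets into ONE compact set `B`.
(3) Let `H` be a limit of the `H_i`. The set of the points near which the `H_i⁻¹` stay bounded is
open and closed: near a limit point `q` the maps `H ∘ H_i⁻¹` converge to the identity (identity
theorem), so `q` is in the image of `H` and `H` is locally invertible there. Hence `X ⊆ B` is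
compact.
The parts of the proof were formalised by helper50, helper405, helper467 and helper559.
-/

set_option autoImplicit false

open Set Filter Topology
open scoped Manifold

namespace Pool.Agent.Results.MP_884f32_an.NonTame

universe u v

/-- `D` has no accumulation point in `X` (it is closed and discrete). -/
def IsDiscreteSubset {X : Type v} [TopologicalSpace X] (D : Set X) : Prop :=
  ∀ x : X, ¬ AccPt x (𝓟 D)

/-- Exhaustion functions: continuous `ρ : X → (0, ∞)` with compact sublevel sets. -/
def IsExhaustion {X : Type v} [TopologicalSpace X] (ρ : X → ℝ) : Prop :=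
  Continuous ρ ∧ (∀ x, 0 < ρ x) ∧ ∀ r : ℝ, 0 < r → IsCompact {x | ρ x ≤ r}

section

variable (E : Type u) [NormedAddCommGroup E] [NormedSpace ℂ E]
  {X : Type v} [TopologicalSpace X] [ChartedSpace E X]

/-- `φ` is an automorphism: a bijection of `X` that is holomorphic in both directions
(`X` is modelled on the complex vector space `E`). -/
def IsAutomorphism (φ : X ≃ X) : Prop :=
  MDifferentiable 𝓘(ℂ, E) 𝓘(ℂ, E) φ ∧ MDifferentiable 𝓘(ℂ, E) 𝓘(ℂ, E) φ.symm

/-- `D` is tame: for every exhaustion function `ρ` on `X` and every `ζ : D → (0, ∞)` some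
automorphism `φ` of `X` satisfies `ρ (φ x) ≥ ζ x` for all `x ∈ D`. -/
def IsTame (D : Set X) : Prop :=
  ∀ ρ : X → ℝ, IsExhaustion ρ → ∀ ζ : D → ℝ, (∀ x, 0 < ζ x) →
    ∃ φ : X ≃ X, IsAutomorphism E φ ∧ ∀ x : D, ζ x ≤ ρ (φ x)

variable (X)

/-- Every entire curve `ℂ → X` whose image is contained in a compact subset of `X` is constant. -/
def NoBoundedEntireCurve : Prop :=
  ∀ f : ℂ → X, MDifferentiable 𝓘(ℂ, ℂ) 𝓘(ℂ, E) f → (∃ K, IsCompact K ∧ ∀ z, f z ∈ K) →
    ∀ z w, f z = f w

/-- Every compact subset of `X` has an open neighbourhood `U` such that the holomorphic functions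
on `U` separate the points of `U`. -/
def LocallySeparated : Prop :=
  ∀ K : Set X, IsCompact K → ∃ U : Set X, IsOpen U ∧ K ⊆ U ∧ ∀ x ∈ U, ∀ y ∈ U, x ≠ y →
    ∃ f : X → ℂ, MDifferentiableOn 𝓘(ℂ, E) 𝓘(ℂ, ℂ) f U ∧ f x ≠ f y

end

/-- (1) Every non-compact complex manifold without nonconstant entire curves of relatively compact
image contains an infinite discrete subset that is not tame. (2) If every compact subset has an
open neighbourhood whose points are separated by holomorphic functions, then there are no such
entire curves. -/
theorem result :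
    (∀ (E : Type u) [NormedAddCommGroup E] [NormedSpace ℂ E] [FiniteDimensional ℂ E]
      (X : Type v) [TopologicalSpace X] [T2Space X] [SecondCountableTopology X]
      [ChartedSpace E X] [IsManifold 𝓘(ℂ, E) 1 X] [NoncompactSpace X],
      NoBoundedEntireCurve E X →
      ∃ D : Set X, D.Infinite ∧ IsDiscreteSubset D ∧ ¬ IsTame E D) ∧
    (∀ (E : Type u) [NormedAddCommGroup E] [NormedSpace ℂ E]
      (X : Type v) [TopologicalSpace X] [T2Space X] [ChartedSpace E X]
      [IsManifold 𝓘(ℂ, E) 1 X], LocallySeparated E X → NoBoundedEntireCurve E X) := by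
  constructor
  · intro E _ _ _ X _ _ _ _ _ _ hX
    have hD : H559.NT.S_DISC.{u, v} := Y50.NT.disc H559.NT.elim.{0, u} H559.NT.cauchy.{0, u}
    have hEQ : H559.NT.S_EQ.{u, v} := Y405.NT.eq hD
    have hLIM : H559.NT.S_MLIM.{u, v} := Y467.NT.mlim H559.NT.elim.{u, u}
    have hNI : H559.NT.S_MNI.{u, v} := Y467.NT.mni H559.NT.elim.{u, u} H559.NT.eni.{u}
    have hID : H559.NT.S_MID.{u, v} := Y467.NT.mid H559.NT.eid.{u, u}
    have hDET : H559.NT.S_MDET.{u, v} := Y467.NT.mdet H559.NT.edet.{u}
    obtain ⟨D, hDi, hDa, hDt⟩ := H559.NT.main2 (E := E) (X := X) hEQ hLIM hNI hID hDET hX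
    refine ⟨D, hDi, hDa, fun ht => hDt ?_⟩
    rintro ρ ⟨hρc, hρ0, hρK⟩ ζ
    obtain ⟨φ, hφ, h⟩ := ht (fun x => ρ x + 1) ⟨hρc.add continuous_const,
      fun x => by linarith [hρ0 x], fun r hr => by
        refine (hρK r hr).of_isClosed_subset
          (isClosed_le (hρc.add continuous_const) continuous_const) ?_
        intro x hx
        have : ρ x + 1 ≤ r := hx
        change ρ x ≤ r
        linarith⟩ (fun x => max (ζ x) 0 + 1) (fun x => by positivity)
    refine ⟨φ, hφ, fun x hx => ?_⟩
    have h1 := h ⟨x, hx⟩
    have h2 := le_max_left (ζ x) 0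
    simp only at h1
    linarith
  · intro E _ _ X _ _ _ _ h
    exact H559.NT.noCurve_of_separated h

end Pool.Agent.Results.MP_884f32_an.NonTame
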